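import Pool.Agent.Helper416_Stair.Final

/-!
# Accumulation points of infinite staircases are irrational (MP_f690a7_gt, Q1)

The ellipsoid embedding function is given by ECH capacities, see `Pool.Agent.Helper416_Stair.Model`.
-/

noncomputable section

namespace Pool.Agent.Results.MP_f690a7_gt.IrrationalAccumulation

open Pool.Agent.Helper416_Stair

/-- If `X_Ω` has an infinite staircase, then `Per² / Vol ≥ 4` and the accumulation point is irrational. -/
theorem result (Ω : Set (ℝ × ℝ)) (hcomp : IsCompact Ω) (hconv : Convex ℝ Ω)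
    (hint : (interior Ω).Nonempty) (hstair : HasInfiniteStaircase Ω) :
    4 ≤ affPer Ω ^ 2 / (2 * (MeasureTheory.volume Ω).toReal) ∧
    ∀ a₀ : ℝ, 1 ≤ a₀ →
      a₀ ^ 2 - a₀ * (affPer Ω ^ 2 / (2 * (MeasureTheory.volume Ω).toReal) - 2) + 1 = 0 →
      Irrational a₀ := by
  obtain ⟨R, hR⟩ := hstair
  exact staircase_irrational Ω hcomp hconv hint R hR

end Pool.Agent.Results.MP_f690a7_gt.IrrationalAccumulation
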